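import Mathlib
import Pool.Agent.H86.CMLib.Y114.MU.Defs
import Pool.Agent.H86.CMLib.Y114.RM.Stm

/-!
# Places of regular monodromy: the motivic Lie algebra, good and regular places
-/

set_option autoImplicit false

namespace Pool.Agent.Y114.RM

open NumberField IsDedekindDomain Polynomial Module Pool.Agent.Y114.TF Pool.Agent.Y114.GF
  Pool.Agent.Y114.MU

section tensors

variable {k : Type} [Field k] {V : Type} [AddCommGroup V] [Module k V]

variable (k V) in
/-- A tensor on `V`: a multilinear form in `m` variables from the sum of `V` and its dual space. -/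
abbrev Tensor (m : ℕ) : Type := MultilinearMap k (fun _ : Fin m => V × Dual k V) k

/-- The action of `g` (with inverse `g'`) on the sum of `V` and its dual space. -/
noncomputable def grp (g g' : End k V) : End k (V × Dual k V) := g.prodMap g'.dualMap

/-- The action of `X`, as an element of the Lie algebra, on the sum of `V` and its dual space. -/
noncomputable def lie (X : End k V) : End k (V × Dual k V) := X.prodMap (-X.dualMap)

/-- `X` kills the tensor `φ` (as an element of the Lie algebra). -/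
def KillsTensor (X : End k V) {m : ℕ} (φ : Tensor k V m) : Prop :=
  ∀ v, ∑ l, φ (Function.update v l (lie X (v l))) = 0

/-- `φ` is a Tate tensor: it is fixed by a subgroup of finite index of `Γ`. -/
def TateTensor {Γ : Type} [Group Γ] (ρ : Representation k Γ V) {m : ℕ} (φ : Tensor k V m) : Prop :=
  ∃ Δ : Subgroup Γ, Δ.FiniteIndex ∧ ∀ γ ∈ Δ, ∀ v, φ (fun l => grp (ρ γ) (ρ γ⁻¹) (v l)) = φ v

/-- The subspace `W` is stable under `L`. -/
def StableUnder (L : Submodule k (End k V)) (W : Submodule k V) : Prop :=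
  ∀ X ∈ L, ∀ x ∈ W, X x ∈ W

end tensors

section motivic

variable {k : Type} [Field k] {ι : Type} [DecidableEq ι] {V : ι → Type}
  [∀ i, AddCommGroup (V i)] [∀ i, Module k (V i)] {Γ : Type} [Group Γ]

/-- `𝔤` has the properties of the Lie algebra of the motivic Galois group (over `k`) of a direct sum
of motives with the realizations `ρ i`: it is a Lie algebra which respects the direct sum, it is
reductive (with nondegenerate trace form, and completely reducible on the sum), it consists of all
endomorphisms which kill all tensors killed by it, and all these tensors are Tate tensors. -/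
structure IsMotivic (ρ : ∀ i, Representation k Γ (V i)) (𝔤 : Submodule k (End k (∀ i, V i))) :
    Prop where
  bracket : IsLie 𝔤
  parts : ∀ X ∈ 𝔤, ∀ x i, X x i = X (Pi.single i (x i)) i
  nondeg : NonDeg 𝔤
  semisimple : ∀ U, StableUnder 𝔤 U → ∃ U', StableUnder 𝔤 U' ∧ IsCompl U U'
  algebraic : ∀ X, (∀ (m : ℕ) (φ : Tensor k (∀ i, V i) m), (∀ Y ∈ 𝔤, KillsTensor Y φ) →
    KillsTensor X φ) → X ∈ 𝔤
  tate : ∀ (m : ℕ) (φ : Tensor k (∀ i, V i) m), (∀ Y ∈ 𝔤, KillsTensor Y φ) →
    TateTensor (sumRep ρ) φ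

end motivic

section places

variable {F : Type} [Field F] [NumberField F] {ι : Type} {n : ι → ℕ} {ℓ : ℕ} [Fact ℓ.Prime]
  (ρ : ∀ i, Representation ℚ_[ℓ] Gal(AlgebraicClosure F/F) (Fin (n i) → ℚ_[ℓ]))

/-- Good reduction at `v`: the representations are unramified at `v`, and geometric Frobenius elements
at `v` have the characteristic polynomials `P i`, with rational coefficients and pure of weight
`w i`. -/
structure GoodPlace (w : ι → ℤ) (v : HeightOneSpectrum (𝓞 F)) (P : ι → ℚ[X]) : Prop where
  unramified : ∀ i Q, PrimeOver Q v → ∀ g, InInertiaAt Q g → ρ i g = 1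
  frobenius : ∀ i Q, PrimeOver Q v → ∀ g, IsFrobAt Q (q v) g →
    (ρ i g⁻¹).charpoly = (P i).map (algebraMap ℚ ℚ_[ℓ])
  pure : ∀ i, ∀ a ∈ (P i).aroots ℂ, ‖a‖ ^ 2 = (q v : ℝ) ^ w i

variable [DecidableEq ι]

/-- Regular monodromy at `v`: at all `Q` above `v` the inertia group acts unipotently, and it contains
an element `τ` whose centralizer in `𝔤` has at most the dimension `r`, such that `φ τ φ⁻¹` acts as
`τ ^ q` for all (arithmetic) Frobenius elements `φ` at `Q`, where `q` is the order of the residue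
field. -/
def RegularPlace (𝔤 : Submodule ℚ_[ℓ] (End ℚ_[ℓ] (∀ i, Fin (n i) → ℚ_[ℓ]))) (r : ℕ)
    (v : HeightOneSpectrum (𝓞 F)) : Prop :=
  ∀ Q, PrimeOver Q v → (∀ g, InInertiaAt Q g → ∀ i, IsNilpotent (ρ i g - 1)) ∧
    ∃ τ, InInertiaAt Q τ ∧ finrank ℚ_[ℓ] (cen 𝔤 (sumRep ρ τ)) ≤ r ∧
      ∀ φ, IsFrobAt Q (q v) φ → ∀ i, ρ i (φ * τ * φ⁻¹) = ρ i (τ ^ q v)

end places

/-- There are `r` multiplicatively independent complex numbers among the roots of the polynomials
`P i`. -/
def IndependentRoots {ι : Type} (r : ℕ) (P : ι → ℚ[X]) : Prop :=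
  ∃ z : Fin r → ℂ, (∀ j, ∃ i, aeval (z j) (P i) = 0) ∧
    ∀ e : Fin r → ℤ, ∏ j, z j ^ e j = 1 → e = 0

end Pool.Agent.Y114.RM
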