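import Mathlib
import Pool.Agent.H86.CMLib.Y114.RM.Stm
import Pool.Agent.H86.CMLib.Y114.MU.Log
import Pool.Agent.H86.CMLib.Y114.TF.Defs

/-!
# Regular monodromy: task statements (logarithms, determinants of adjoint representations)
-/

set_option autoImplicit false

namespace Pool.Agent.Y114.RM

open Module Polynomial Pool.Agent.TH118.SG Pool.Agent.Y114.MU Pool.Agent.Y114.TF

/-- SS: a `θ`-operator is semisimple. -/
def S_SS : Prop := ∀ (K : Type) [Field K] [CharZero K] [IsAlgClosed K] (V : Type)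
  [AddCommGroup V] [Module K V] [FiniteDimensional K V] (θ : Additive Kˣ →+ K) (g Y : End K V),
  IsOp θ g Y → ∀ x, Y (Y x) = 0 → Y x = 0

/-- LOG1: the coefficients of `(1 + ν) ^ t` are polynomials in the logarithm. -/
def S_LOG1 : Prop := ∀ (k : Type) [Field k] [CharZero k] (V : Type) [AddCommGroup V] [Module k V]
  (ν : End k V) (d : ℕ), 2 ≤ d → ν ^ d = 0 →
  (∀ i, lgA d ν i ∈ Algebra.adjoin k {lgA d ν 1}) ∧
    ∀ X : End k V, X * lgA d ν 1 = lgA d ν 1 * X → X * ν = ν * X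

/-- LOG2: the logarithm of a conjugate which is a power. -/
def S_LOG2 : Prop := ∀ (k : Type) [Field k] [CharZero k] (V : Type) [AddCommGroup V] [Module k V]
  (ν g g' : End k V) (d q : ℕ), 2 ≤ d → ν ^ d = 0 → g * g' = 1 → g' * g = 1 →
  g * (1 + ν) * g' = (1 + ν) ^ q → g * lgA d ν 1 * g' = q • lgA d ν 1

/-- LOG3: subspaces stable under a power of `1 + ν` are stable under the logarithm. -/
def S_LOG3 : Prop := ∀ (k : Type) [Field k] [CharZero k] (V : Type) [AddCommGroup V] [Module k V]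
  (ν : End k V) (d M : ℕ), 2 ≤ d → ν ^ d = 0 → 0 < M → ∀ W : Submodule k V,
  (∀ x ∈ W, ((1 + ν) ^ M) x ∈ W) → ∀ x ∈ W, lgA d ν 1 x ∈ W

/-- LOG4: the logarithm of the inverse. -/
def S_LOG4 : Prop := ∀ (k : Type) [Field k] [CharZero k] (V : Type) [AddCommGroup V] [Module k V]
  (ν ν' : End k V) (d : ℕ), 2 ≤ d → ν ^ d = 0 → ν' ^ d = 0 → (1 + ν) * (1 + ν') = 1 →
  lgA d ν' 1 = -lgA d ν 1

/-- ADW: the determinant of the conjugation with a Frobenius element on a stable space of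
endomorphisms is an algebraic number of absolute value one. -/
def S_ADW : Prop := ∀ (ℓ : ℕ) [Fact ℓ.Prime] (j : ℚ_[ℓ] →+* ℂ) (ι : Type) [Fintype ι]
  [DecidableEq ι] (n : ι → ℕ) (g g' : End ℚ_[ℓ] (∀ i, Fin (n i) → ℚ_[ℓ]))
  (gi : ∀ i, End ℚ_[ℓ] (Fin (n i) → ℚ_[ℓ])) (P : ι → ℚ[X]) (c : ι → ℝ),
  g * g' = 1 → g' * g = 1 → (∀ x i, g x i = gi i (x i)) →
  (∀ i, (gi i).charpoly = (P i).map (algebraMap ℚ ℚ_[ℓ])) →
  (∀ i, ∀ a ∈ (P i).aroots ℂ, ‖a‖ ^ 2 = c i) →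
  ∀ (L : Submodule ℚ_[ℓ] (End ℚ_[ℓ] (∀ i, Fin (n i) → ℚ_[ℓ]))),
  (∀ X ∈ L, ∀ x i, X x i = X (Pi.single i (x i)) i) →
  ∀ (hL : ∀ X ∈ L, AdE g g' X ∈ L),
  IsAlgebraic ℚ (detOn L (AdE g g') hL) ∧ ‖j (detOn L (AdE g g') hL)‖ = 1

/-- CONT: the determinant of the adjoint action on a stable space of endomorphisms is a
continuous character. -/
def S_CONT : Prop := ∀ (ℓ : ℕ) [Fact ℓ.Prime] (ι : Type) [Fintype ι]
  (n : ι → ℕ) (Γ : Type) [Group Γ] [TopologicalSpace Γ] [IsTopologicalGroup Γ]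
  (ρ : ∀ i, Representation ℚ_[ℓ] Γ (Fin (n i) → ℚ_[ℓ])),
  (∀ i, Continuous fun g => LinearMap.toMatrix' (ρ i g)) →
  ∀ (L : Submodule ℚ_[ℓ] (End ℚ_[ℓ] (∀ i, Fin (n i) → ℚ_[ℓ])))
  (hL : ∀ γ : Γ, ∀ X ∈ L, AdE (sumRep ρ γ) (sumRep ρ γ⁻¹) X ∈ L),
  ∃ ψ : Γ →* ℚ_[ℓ]ˣ, Continuous ψ ∧
    ∀ γ, (ψ γ : ℚ_[ℓ]) = detOn L (AdE (sumRep ρ γ) (sumRep ρ γ⁻¹)) (hL γ)

end Pool.Agent.Y114.RM
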