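import Mathlib
import Pool.Agent.H86.CMLib.Y114.RM.Defs
import Pool.Agent.H86.CMLib.Y114.RM.Stm2

/-!
# Regular monodromy: task statements (base change, tensors)
-/

set_option autoImplicit false

namespace Pool.Agent.Y114.RM

open Module Polynomial TensorProduct Pool.Agent.TH118.SG Pool.Agent.Y114.MU Pool.Agent.Y114.TF
  Pool.Agent.H204R3.GP

section defs

variable {k : Type} [Field k] {C : Type} [Field C] [Algebra k C] {V : Type} [AddCommGroup V]
  [Module k V] {W : Type} [AddCommGroup W] [Module k W]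

/-- `c ⊗ v ↦ π c • v`. -/
noncomputable def pv (π : C →ₗ[k] k) : C ⊗[k] V →ₗ[k] V :=
  (TensorProduct.lid k V).toLinearMap ∘ₗ LinearMap.rTensor V π

theorem pv_tmul (π : C →ₗ[k] k) (c : C) (v : V) : pv π (c ⊗ₜ[k] v) = π c • v := rfl

/-- `v ↦ pv π (Y (1 ⊗ v))`. -/
noncomputable def pM (π : C →ₗ[k] k) (Y : (C ⊗[k] V) →ₗ[C] (C ⊗[k] W)) : V →ₗ[k] W :=
  pv π ∘ₗ Y.restrictScalars k ∘ₗ TensorProduct.mk k C V 1

theorem pM_apply (π : C →ₗ[k] k) (Y : (C ⊗[k] V) →ₗ[C] (C ⊗[k] W)) (v : V) :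
    pM π Y v = pv π (Y (1 ⊗ₜ[k] v)) := rfl

variable (C) in
/-- The base change of a space of endomorphisms. -/
noncomputable def bcS (L : Submodule k (End k V)) : Submodule C (End C (C ⊗[k] V)) :=
  Submodule.span C (LinearMap.baseChange C '' (L : Set (End k V)))

variable {Γ : Type} [Group Γ]

/-- The endomorphisms which preserve all subspaces stable under a subgroup of finite index, and kill
all Tate tensors. -/
def LT (ρ : Representation k Γ V) : Set (End k V) :=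
  {X | (∀ W : Submodule k V, (∃ Δ : Subgroup Γ, Δ.FiniteIndex ∧ ∀ γ ∈ Δ, ∀ x ∈ W, ρ γ x ∈ W) →
    ∀ x ∈ W, X x ∈ W) ∧ ∀ (m : ℕ) (φ : Tensor k V m), TateTensor ρ φ → KillsTensor X φ}

end defs

/-- BC: base change of spaces of endomorphisms. -/
def S_BC : Prop := ∀ (k : Type) [Field k] (C : Type) [Field C] [Algebra k C] (V : Type)
  [AddCommGroup V] [Module k V] [FiniteDimensional k V] (G : Submodule k (End k V)),
  (∀ Y : End C (C ⊗[k] V), Y ∈ bcS C G ↔ ∀ π : C →ₗ[k] k, pM π Y ∈ G) ∧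
  (IsLie G → IsLie (bcS C G)) ∧ (NonDeg G → NonDeg (bcS C G)) ∧
  (∀ N : End k V, finrank C (cen (bcS C G) (N.baseChange C)) = finrank k (cen G N)) ∧
  (∀ L ≤ G, bcS C L = bcS C G → L = G) ∧
  ∀ (g g' : End k V) (h : ∀ X ∈ G, AdE g g' X ∈ G)
    (h' : ∀ X ∈ bcS C G, AdE (g.baseChange C) (g'.baseChange C) X ∈ bcS C G),
    detOn (bcS C G) (AdE (g.baseChange C) (g'.baseChange C)) h' =
      algebraMap k C (detOn G (AdE g g') h)

/-- TOR: the `θ`-operators of `g` over an algebraically closed extension `C` kill the tensors fixed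
by a power of `g`, and preserve the subspaces stable under a power of `g`. -/
def S_TOR : Prop := ∀ (k : Type) [Field k] [CharZero k] (C : Type) [Field C] [CharZero C]
  [IsAlgClosed C] [Algebra k C] (V : Type) [AddCommGroup V] [Module k V] [FiniteDimensional k V]
  (g g' : End k V), g * g' = 1 → g' * g = 1 → ∀ (θ : Additive Cˣ →+ C) (Y : End C (C ⊗[k] V)),
  IsOp θ (g.baseChange C) Y → ∀ M : ℕ, 0 < M → ∀ π : C →ₗ[k] k,
  (∀ (m : ℕ) (φ : Tensor k V m), (∀ v, φ (fun l => grp (g ^ M) (g' ^ M) (v l)) = φ v) →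
    KillsTensor (pM π Y) φ) ∧
  ∀ W : Submodule k V, (∀ x ∈ W, (g ^ M) x ∈ W) → ∀ x ∈ W, pM π Y x ∈ W

/-- LIE: the Lie algebra attached to a representation. -/
def S_LIE : Prop := ∀ (k : Type) [Field k] [CharZero k] (V : Type) [AddCommGroup V] [Module k V]
  [FiniteDimensional k V] (Γ : Type) [Group Γ] (ρ : Representation k Γ V),
  ∃ L : Submodule k (End k V), (∀ X, X ∈ L ↔ X ∈ LT ρ) ∧ IsLie L ∧
    (∀ γ, ∀ X ∈ L, AdE (ρ γ) (ρ γ⁻¹) X ∈ L) ∧
    ∀ (τ : Γ) (d : ℕ), 2 ≤ d → (ρ τ - 1) ^ d = 0 → lgA d (ρ τ - 1) 1 ∈ L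

/-- CONCL: the conclusion. -/
def S_CONCL : Prop := ∀ (k : Type) [Field k] [CharZero k] (ι : Type) [Fintype ι] [DecidableEq ι]
  (V : ι → Type) [∀ i, AddCommGroup (V i)] [∀ i, Module k (V i)] [∀ i, FiniteDimensional k (V i)]
  (Γ : Type) [Group Γ] (ρ : ∀ i, Representation k Γ (V i))
  (G : Submodule k (End k (∀ i, V i))), IsMotivic ρ G → (∀ X ∈ G, X ∈ LT (sumRep ρ)) →
  FiniteIndexSemisimple (sumRep ρ)

end Pool.Agent.Y114.RM
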