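import Mathlib
import Pool.Agent.H86.CMLib.Y114.RM.Stm4
import Pool.Agent.H86.CMLib.Y114.RM.Stm5
import Pool.Agent.H86.CMLib.Y114.RM.Local
import Pool.Agent.H86.CMLib.Y41.RM.Concl

/-!
# Maximal Frobenius tori: linear algebra
-/

set_option autoImplicit false
set_option linter.unusedSectionVars false
set_option linter.unusedVariables false

namespace Pool.Agent.Y114.RM

open Module Polynomial TensorProduct Pool.Agent.TH118.SG Pool.Agent.Y114.MU Pool.Agent.Y114.TF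
  Pool.Agent.H204R3.GP

/-- The inputs of the second part. -/
structure Inputs2 : Prop where
  ratio : S_RATIO
  uni : S_UNI
  tfr : S_TFR
  sym : S_SYM
  weyl : S_WEYL
  jord : S_JORD
  cartan : S_CARTAN

section pm

variable {k : Type} [Field k] {C : Type} [Field C] [Algebra k C] {V : Type} [AddCommGroup V]
  [Module k V]

theorem exists_pi (k C : Type) [Field k] [Field C] [Algebra k C] :
    ∃ π : C →ₗ[k] k, π 1 = 1 := by
  obtain ⟨π, hπ⟩ := LinearMap.exists_leftInverse_of_injective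
    ((Algebra.linearMap k C)) (LinearMap.ker_eq_bot.2 (algebraMap k C).injective)
  refine ⟨π, ?_⟩
  have h1 := LinearMap.congr_fun hπ 1
  rw [LinearMap.comp_apply, Algebra.linearMap_apply, map_one, LinearMap.id_apply] at h1
  exact h1

theorem pv_bc (π : C →ₗ[k] k) (X : End k V) (z : C ⊗[k] V) :
    pv π (X.baseChange C z) = X (pv π z) := by
  induction z with
  | zero => simp only [map_zero]
  | add x y hx hy => simp only [map_add, hx, hy]
  | tmul c v => rw [LinearMap.baseChange_tmul, pv_tmul, pv_tmul, map_smul]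

theorem pM_bc_mul (π : C →ₗ[k] k) (X : End k V) (Y : End C (C ⊗[k] V)) :
    (pM π (X.baseChange C * Y) : End k V) = X * pM π Y := by
  refine LinearMap.ext fun v => ?_
  rw [pM_apply, Module.End.mul_apply, pv_bc, Module.End.mul_apply, pM_apply]

theorem pM_mul_bc (π : C →ₗ[k] k) (X : End k V) (Y : End C (C ⊗[k] V)) :
    (pM π (Y * X.baseChange C) : End k V) = pM π Y * X := by
  refine LinearMap.ext fun v => ?_
  rw [pM_apply, Module.End.mul_apply, LinearMap.baseChange_tmul, Module.End.mul_apply, pM_apply]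

theorem pM_bc (π : C →ₗ[k] k) (hπ : π 1 = 1) (X : End k V) :
    (pM π (X.baseChange C) : End k V) = X := by
  refine LinearMap.ext fun v => ?_
  rw [pM_apply, LinearMap.baseChange_tmul, pv_tmul, hπ, one_smul]

theorem bc_inj {X Y : End k V} (h : X.baseChange C = Y.baseChange C) : X = Y := by
  obtain ⟨π, hπ⟩ := exists_pi k C
  rw [← pM_bc π hπ X, h, pM_bc π hπ]

theorem pv_mem (π : C →ₗ[k] k) {W : Submodule k V} {z : C ⊗[k] V} (hz : z ∈ W.baseChange C) :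
    pv π z ∈ W := by
  rw [Submodule.baseChange_eq_span] at hz
  have key : ∀ c : C, pv π (c • z) ∈ W := by
    induction hz using Submodule.span_induction with
    | mem x hx =>
      intro c
      obtain ⟨w, hw, rfl⟩ := hx
      change pv π (c • ((1 : C) ⊗ₜ[k] w)) ∈ W
      rw [TensorProduct.smul_tmul', pv_tmul]
      exact W.smul_mem _ hw
    | zero => intro c; rw [smul_zero, map_zero]; exact W.zero_mem
    | add x y _ _ hx hy => intro c; rw [smul_add, map_add]; exact W.add_mem (hx c) (hy c)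
    | smul a x _ hx => intro c; rw [smul_smul]; exact hx _
  have := key 1
  rwa [one_smul] at this

theorem bcS_stable {L : Submodule k (End k V)} {W : Submodule k V}
    (h : ∀ X ∈ L, ∀ x ∈ W, X x ∈ W) : ∀ X ∈ bcS C L, ∀ x ∈ W.baseChange C, X x ∈ W.baseChange C := by
  intro X hX
  induction hX using Submodule.span_induction with
  | mem X hX =>
    obtain ⟨Y, hY, rfl⟩ := hX
    intro x hx
    rw [Submodule.baseChange_eq_span] at hx
    induction hx using Submodule.span_induction with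
    | mem x hx =>
      obtain ⟨w, hw, rfl⟩ := hx
      change Y.baseChange C ((1 : C) ⊗ₜ[k] w) ∈ _
      rw [LinearMap.baseChange_tmul]
      exact Submodule.tmul_mem_baseChange_of_mem 1 (h Y hY w hw)
    | zero => rw [map_zero]; exact Submodule.zero_mem _
    | add x y _ _ hx hy => rw [map_add]; exact Submodule.add_mem _ hx hy
    | smul a x _ hx => rw [map_smul]; exact Submodule.smul_mem _ _ hx
  | zero => intro x hx; rw [LinearMap.zero_apply]; exact Submodule.zero_mem _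
  | add X Y _ _ hX hY =>
    intro x hx
    rw [LinearMap.add_apply]
    exact Submodule.add_mem _ (hX x hx) (hY x hx)
  | smul c X _ hX => intro x hx; rw [LinearMap.smul_apply]; exact Submodule.smul_mem _ _ (hX x hx)

/-- Endomorphisms which commute with `L` commute with the base change of `L`. -/
theorem bcS_comm {L : Submodule k (End k V)} {Y : End k V} (h : ∀ X ∈ L, X * Y = Y * X) :
    ∀ X ∈ bcS C L, X * Y.baseChange C = Y.baseChange C * X := by
  intro X hX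
  induction hX using Submodule.span_induction with
  | mem X hX =>
    obtain ⟨Z, hZ, rfl⟩ := hX
    rw [← bc_mul, ← bc_mul, h Z hZ]
  | zero => rw [zero_mul, mul_zero]
  | add X Y _ _ hX hY => rw [add_mul, mul_add, hX, hY]
  | smul c X _ hX => rw [smul_mul_assoc, mul_smul_comm, hX]

end pm

section torus

variable {V : Type} [AddCommGroup V] [Module ℂ V] [FiniteDimensional ℂ V]

theorem ext0_add (θ θ' : Additive ℂˣ →+ ℂ) (β : ℂ) :
    ext0 (θ + θ') β = ext0 θ β + ext0 θ' β := by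
  by_cases h : β = 0
  · rw [h, ext0_zero, ext0_zero, ext0_zero, add_zero]
  · rw [ext0_ne _ h, ext0_ne _ h, ext0_ne _ h]
    rfl

theorem ext0_smul (c : ℂ) (θ : Additive ℂˣ →+ ℂ) (β : ℂ) :
    ext0 (c • θ) β = c * ext0 θ β := by
  by_cases h : β = 0
  · rw [h, ext0_zero, ext0_zero, mul_zero]
  · rw [ext0_ne _ h, ext0_ne _ h]
    rfl

theorem ext0_zero' (β : ℂ) : ext0 (0 : Additive ℂˣ →+ ℂ) β = 0 := by
  by_cases h : β = 0
  · rw [h, ext0_zero]
  · rw [ext0_ne _ h]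
    rfl

/-- The Lie algebra of the torus attached to `g`. -/
def tor (g : End ℂ V) : Submodule ℂ (End ℂ V) where
  carrier := {Y | ∃ θ : Additive ℂˣ →+ ℂ, IsOp θ g Y}
  add_mem' := by
    rintro a b ⟨θ, ha⟩ ⟨θ', hb⟩
    refine ⟨θ + θ', fun β x hx => ?_⟩
    rw [LinearMap.add_apply, ha β x hx, hb β x hx, ext0_add, add_smul]
  zero_mem' := ⟨0, fun β x hx => by rw [LinearMap.zero_apply, ext0_zero', zero_smul]⟩
  smul_mem' := by
    rintro c a ⟨θ, ha⟩
    refine ⟨c • θ, fun β x hx => ?_⟩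
    rw [LinearMap.smul_apply, ha β x hx, ext0_smul, mul_smul]

theorem tor_diag (g : End ℂ V) : ∀ a ∈ tor g, ⨆ μ, End.eigenspace a μ = ⊤ := by
  rintro a ⟨θ, ha⟩
  rw [eq_top_iff, ← Module.End.iSup_maxGenEigenspace_eq_top g]
  refine iSup_le fun β => ?_
  refine le_trans ?_ (le_iSup _ (ext0 θ β))
  intro x hx
  rw [Module.End.mem_eigenspace_iff]
  exact ha β x hx

theorem tor_comm (g : End ℂ V) : ∀ a ∈ tor g, ∀ b ∈ tor g, a * b = b * a := by
  rintro a ⟨θ, ha⟩ b ⟨θ', hb⟩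
  refine op_ext g fun β x hx => ?_
  rw [Module.End.mul_apply, Module.End.mul_apply, ha β x hx, hb β x hx, map_smul, map_smul,
    ha β x hx, hb β x hx, smul_comm]

theorem tor_rank (hrd : S_RD) (g : End ℂ V) (hinj : Function.Injective g) {r : ℕ} (z : Fin r → ℂ)
    (hz : ∀ i, End.HasEigenvalue g (z i)) (hind : ∀ e : Fin r → ℤ, ∏ i, z i ^ e i = 1 → e = 0) :
    r ≤ finrank ℂ (tor g) := by
  obtain ⟨θ', θ, p, hp⟩ := hrd _ g hinj r z hz hind
  obtain ⟨h', hh'⟩ := exists_op g (fun z => ext0 θ' z)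
  have hex : ∀ j, ∃ t : End ℂ V, IsOp (θ j) g t := fun j => exists_op g (fun z => ext0 (θ j) z)
  choose t ht using hex
  have hdet := hp h' t hh' ht
  have hmem : ∀ j, t j ∈ tor g := fun j => ⟨θ j, ht j⟩
  have hli : LinearIndependent ℂ (fun j => (⟨t j, hmem j⟩ : tor g)) := by
    rw [Fintype.linearIndependent_iff]
    intro c hc
    have h1 : ∑ j, c j • t j = 0 := by
      have h3 := congrArg (Submodule.subtype (tor g)) hc
      rw [map_sum, map_zero] at h3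
      rw [← h3]
      refine Finset.sum_congr rfl fun j _ => ?_
      rw [map_smul]
      rfl
    have h3 : (Matrix.of fun i j => LinearMap.trace ℂ V (aeval h' (p i) * t j)).mulVec c = 0 := by
      funext i
      rw [Matrix.mulVec, dotProduct, Pi.zero_apply]
      have h4 : ∀ j, (Matrix.of fun i j => LinearMap.trace ℂ V (aeval h' (p i) * t j)) i j * c j =
          LinearMap.trace ℂ V (aeval h' (p i) * (c j • t j)) := by
        intro j
        rw [mul_smul_comm, map_smul, smul_eq_mul, mul_comm, Matrix.of_apply]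
      rw [Finset.sum_congr rfl fun j _ => h4 j, ← map_sum, ← Finset.mul_sum, h1, mul_zero, map_zero]
    intro i
    by_contra hne
    exact hdet (Matrix.exists_mulVec_eq_zero_iff.1 ⟨c, fun h0 => hne (congrFun h0 i), h3⟩)
  have h5 := hli.fintype_card_le_finrank
  rwa [Fintype.card_fin] at h5

end torus

/-- The rank of `𝔤` is at most `r`: the centralizer in `𝔤` of some element of `𝔤` has at most the
dimension `r`. -/
def RankAtMost {k : Type} [Field k] {V : Type} [AddCommGroup V] [Module k V]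
    (𝔤 : Submodule k (End k V)) (r : ℕ) : Prop :=
  ∃ X ∈ 𝔤, finrank k (cen 𝔤 X) ≤ r

section loc

variable {k : Type} [Field k] [CharZero k] [Algebra k ℂ] {V : Type} [AddCommGroup V] [Module k V]
  [FiniteDimensional k V] {Γ : Type} [Group Γ] (ρ : Representation k Γ V)

/-- The unipotent part of a group element. -/
theorem uni_mem (h : Inputs) (h2 : Inputs2) {L : Submodule k (End k V)}
    (hL : ∀ X, X ∈ L ↔ X ∈ LT ρ) (γ : Γ) :
    ∃ (N : End ℂ (ℂ ⊗[k] V)) (M : ℕ), N ∈ bcS ℂ L ∧ 0 < M ∧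
      (∀ Z ∈ tor ((ρ γ).baseChange ℂ), Z * N = N * Z) ∧
      ∀ Y : End ℂ (ℂ ⊗[k] V), N * Y = Y * N →
        (∀ Z ∈ tor ((ρ γ).baseChange ℂ), Z * Y = Y * Z) →
        (ρ γ ^ M).baseChange ℂ * Y = Y * (ρ γ ^ M).baseChange ℂ := by
  obtain ⟨N, M, hN, hM, h1, h3, h4⟩ := h2.uni k ℂ V (ρ γ) (ρ γ⁻¹) (rho_mul_inv ρ γ)
    (rho_inv_mul ρ γ)
  refine ⟨N, M, ?_, hM, ?_, fun Y hY hZ => h4 Y hY fun θ Z hθ => hZ Z ⟨θ, hθ⟩⟩
  · rw [(h.bc k ℂ V L).1]
    intro π
    rw [hL]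
    refine ⟨?_, ?_⟩
    · rintro W ⟨Δ, hΔ, hW⟩
      obtain ⟨M, hM0, -, hM⟩ := Subgroup.exists_pow_mem_of_index_ne_zero hΔ.index_ne_zero γ
      exact (h3 M hM0 π).1 W (fun x hx => by rw [← map_pow]; exact hW _ hM x hx)
    · rintro m φ ⟨Δ, hΔ, hφ⟩
      obtain ⟨M, hM0, -, hM⟩ := Subgroup.exists_pow_mem_of_index_ne_zero hΔ.index_ne_zero γ
      exact (h3 M hM0 π).2 m φ
        (fun v => by rw [← map_pow, ← map_pow, inv_pow]; exact hφ _ hM v)
  · rintro Z ⟨θ, hθ⟩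
    exact h1 θ Z hθ

theorem tor_le (h : Inputs) {L : Submodule k (End k V)} (hL : ∀ X, X ∈ L ↔ X ∈ LT ρ) (γ : Γ) :
    tor ((ρ γ).baseChange ℂ) ≤ bcS ℂ L := by
  rintro Y ⟨θ, hY⟩
  exact op_mem ρ h hL γ θ Y hY

/-- The torus of a Frobenius element is its own centralizer. -/
theorem torus_cen (h : Inputs) (hjord : S_JORD) (hcartan : S_CARTAN) {L G : Submodule k (End k V)}
    (hL : ∀ X, X ∈ L ↔ X ∈ LT ρ) (hLG : L ≤ G) (hG : IsLie G) (hnd : NonDeg G)
    (halg : ∀ X, (∀ (m : ℕ) (φ : Tensor k V m), (∀ Y ∈ G, KillsTensor Y φ) → KillsTensor X φ) →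
      X ∈ G) {r : ℕ} (hrk : RankAtMost G r) (g₀ : Γ) (z : Fin r → ℂ)
    (hz : ∀ i, End.HasEigenvalue ((ρ g₀).baseChange ℂ) (z i))
    (hind : ∀ e : Fin r → ℤ, ∏ i, z i ^ e i = 1 → e = 0) :
    ∀ x ∈ bcS ℂ G, (∀ a ∈ tor ((ρ g₀).baseChange ℂ), a * x = x * a) →
      x ∈ tor ((ρ g₀).baseChange ℂ) := by
  set gC : End ℂ (ℂ ⊗[k] V) := (ρ g₀).baseChange ℂ with hgC
  have hg'g : (ρ g₀⁻¹).baseChange ℂ * gC = 1 := by rw [hgC, ← bc_mul, rho_inv_mul, bc_one]
  have hinj₀ : Function.Injective gC := injective_of_mul hg'g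
  have hrank : r ≤ finrank ℂ (tor gC) := tor_rank h.rd gC hinj₀ z hz hind
  obtain ⟨X, hX, hXr⟩ := hrk
  refine hcartan ℂ _ (bcS ℂ G) (tor gC) ((h.bc k ℂ V G).2.1 hG) ((h.bc k ℂ V G).2.2.1 hnd)
    (hjord k ℂ V G halg) ((tor_le ρ h hL g₀).trans (bcS_mono hLG)) (tor_diag gC) (tor_comm gC)
    ⟨X.baseChange ℂ, mem_bcS hX, ?_⟩
  rw [(h.bc k ℂ V G).2.2.2.1]
  exact hXr.trans hrank

/-- The properties of the torus of a Frobenius element. -/
theorem torus_local (h : Inputs) {L : Submodule k (End k V)}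
    (hL : ∀ X, X ∈ L ↔ X ∈ LT ρ) (hLie : IsLie L)
    (hAd : ∀ γ, ∀ X ∈ L, AdE (ρ γ) (ρ γ⁻¹) X ∈ L) (g₀ : Γ)
    (htor : ∃ m : ℕ, 0 < m ∧
      (algebraMap k ℂ (detOn L (AdE (ρ g₀) (ρ g₀⁻¹)) (hAd g₀))) ^ m = 1) :
    ∀ (hLC : IsLie (bcS ℂ L)) (a : End ℂ (ℂ ⊗[k] V)) (ha : a ∈ tor ((ρ g₀).baseChange ℂ)),
      LinearMap.trace ℂ (bcS ℂ L) ((adE a).restrict (hLC.adE_mem (tor_le ρ h hL g₀ ha))) = 0 := by
  set gC : End ℂ (ℂ ⊗[k] V) := (ρ g₀).baseChange ℂ with hgC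
  set g'C : End ℂ (ℂ ⊗[k] V) := (ρ g₀⁻¹).baseChange ℂ with hg'C
  have hgg' : gC * g'C = 1 := by rw [hgC, hg'C, ← bc_mul, rho_mul_inv, bc_one]
  have hg'g : g'C * gC = 1 := by rw [hgC, hg'C, ← bc_mul, rho_inv_mul, bc_one]
  intro hLC a ha
  obtain ⟨θ, hθ⟩ := ha
  obtain ⟨m, hm, htor⟩ := htor
  have hadd : IsOp θ (AdE gC g'C) (adE a) := h.ad ℂ _ θ gC g'C a hgg' hg'g hθ
  have hAdC := AdE_bcS (C := ℂ) (hAd g₀)
  have hinjA : Function.Injective (AdE gC g'C) := by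
    apply injective_of_mul (g' := AdE g'C gC)
    refine LinearMap.ext fun X => ?_
    rw [Module.End.mul_apply, AdE_apply, AdE_apply, Module.End.one_apply, mul_assoc, mul_assoc,
      hg'g, mul_one, ← mul_assoc, hg'g, one_mul]
  have hinjR : Function.Injective ((AdE gC g'C).restrict hAdC) := by
    intro x y hxy
    exact Subtype.ext (hinjA (congrArg Subtype.val hxy))
  have h1 := (h.res ℂ _ θ (AdE gC g'C) (adE a) hinjA hadd (bcS ℂ L)).2 hAdC
    (hLC.adE_mem (tor_le ρ h hL g₀ ⟨θ, hθ⟩))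
  have h3 := h.tr ℂ _ θ _ _ hinjR h1
  set D : ℂ := algebraMap k ℂ (detOn L (AdE (ρ g₀) (ρ g₀⁻¹)) (hAd g₀)) with hD
  have h4 : LinearMap.det (M := bcS ℂ L) ((AdE gC g'C).restrict hAdC) = D :=
    (h.bc k ℂ V L).2.2.2.2.2 (ρ g₀) (ρ g₀⁻¹) (hAd g₀) hAdC
  rw [h4] at h3
  have h5 := ext0_pow θ D hm
  rw [htor, ext0_one] at h5
  have h6 : (m : ℂ) ≠ 0 := Nat.cast_ne_zero.2 hm.ne'
  have h7 : ext0 θ D = 0 := (mul_eq_zero.1 h5.symm).resolve_left h6
  rw [h7] at h3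
  exact h3

/-- Subspaces stable under the Lie algebra have a complement. -/
theorem exists_proj (h : Inputs) (h2 : Inputs2) {L G : Submodule k (End k V)}
    (hLie : IsLie L) (hLG : L ≤ G) (hG : IsLie G) (hnd : NonDeg G)
    {t : Submodule ℂ (End ℂ (ℂ ⊗[k] V))} (htL : t ≤ bcS ℂ L)
    (hdiag : ∀ a ∈ t, ⨆ μ, End.eigenspace a μ = ⊤) (hcomm : ∀ a ∈ t, ∀ b ∈ t, a * b = b * a)
    (hcen : ∀ x ∈ bcS ℂ G, (∀ a ∈ t, a * x = x * a) → x ∈ t)
    (htr : ∀ (hLC : IsLie (bcS ℂ L)) (a : End ℂ (ℂ ⊗[k] V)) (ha : a ∈ t),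
      LinearMap.trace ℂ (bcS ℂ L) ((adE a).restrict (hLC.adE_mem (htL ha))) = 0) :
    NonDeg (bcS ℂ L) ∧ ∀ W : Submodule k V, (∀ X ∈ L, ∀ x ∈ W, X x ∈ W) →
      ∃ P : End k V, (∀ X ∈ L, X * P = P * X) ∧ (∀ x, P x ∈ W) ∧ ∀ x ∈ W, P x = x := by
  have hLC : IsLie (bcS ℂ L) := (h.bc k ℂ V L).2.1 hLie
  have hLGC : bcS ℂ L ≤ bcS ℂ G := bcS_mono hLG
  have hN : NonDeg (bcS ℂ L) := h2.sym ℂ _ (bcS ℂ G) (bcS ℂ L) t ((h.bc k ℂ V G).2.1 hG)
    ((h.bc k ℂ V G).2.2.1 hnd) hLGC hLC htL hdiag hcomm hcen (fun a ha => htr hLC a ha)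
  refine ⟨hN, fun W hW => ?_⟩
  obtain ⟨P, hP1, hP2, hP3⟩ := h2.weyl ℂ _ (bcS ℂ L) hLC hN (fun x hx hxL =>
    hdiag x (hcen x (hLGC hx) fun a ha => (hxL a (htL ha)).symm)) (W.baseChange ℂ)
    (bcS_stable hW)
  obtain ⟨π, hπ⟩ := exists_pi k ℂ
  refine ⟨pM π P, fun X hX => ?_, fun x => ?_, fun x hx => ?_⟩
  · rw [← pM_bc_mul, hP1 _ (mem_bcS hX), pM_mul_bc]
  · rw [pM_apply]
    exact pv_mem π (hP2 _)
  · rw [pM_apply, hP3 _ (Submodule.tmul_mem_baseChange_of_mem 1 hx), pv_tmul, hπ, one_smul]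

end loc

end Pool.Agent.Y114.RM
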